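import Mathlib
import Pool.Agent.H17.PG

namespace Pool.Agent.Results.MP_da28a5_co.Indec

/-- The points of `PG(r-1, K)`. -/
abbrev Pt (K : Type) [Field K] (r : ℕ) : Type := Projectivization K (Fin r → K)

/-- The bases of the matroid `PG(r-1, K)`: sets of points whose representative vectors are
linearly independent and span `K^r`. -/
def pgBases (K : Type) [Field K] (r : ℕ) : Set (Set (Pt K r)) :=
  {B | LinearIndepOn K Projectivization.rep B ∧
    Submodule.span K (Projectivization.rep '' B) = ⊤}

/-- The convex hull of the indicator vectors `e_B` of the members `B` of a set family. -/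
def polytope {E : Type} (F : Set (Set E)) : Set (E → ℝ) :=
  convexHull ℝ ((fun B : Set E => B.indicator (1 : E → ℝ)) '' F)

theorem result (K : Type) [Field K] [Finite K] (r : ℕ) (hr : 3 ≤ r)
    (C : Set (Matroid (Pt K r))) (hfin : C.Finite) (hE : ∀ M ∈ C, M.E = Set.univ)
    (hB : ∀ M ∈ C, {B | M.IsBase B} ⊆ pgBases K r)
    (hcov : polytope (pgBases K r) ⊆ ⋃ M ∈ C, polytope {B | M.IsBase B}) :
    ∃ M ∈ C, {B | M.IsBase B} = pgBases K r := by
  have : Finite (Pt K r) := Quotient.finite _
  have := Fintype.ofFinite (Pt K r)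
  obtain ⟨M, hM, h⟩ := Pool.Agent.H17.PG.main (K := K) (V := Fin r → K) (by simpa using hr)
    hfin.toFinset id (fun M hM => hE M (hfin.mem_toFinset.mp hM))
    (fun M hM B hb => hB M (hfin.mem_toFinset.mp hM) hb)
    (fun p hp => by
      obtain ⟨M, hM, h⟩ := Set.mem_iUnion₂.mp (hcov hp)
      exact ⟨M, hfin.mem_toFinset.mpr hM, h⟩)
  have hM' := hfin.mem_toFinset.mp hM
  exact ⟨M, hM', Set.Subset.antisymm (hB M hM') fun B hb => h B hb⟩

end Pool.Agent.Results.MP_da28a5_co.Indec
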